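import Pool.Agent.X264.ES.Rep

/-!
# Three conditions on representations: reduction to the rationals and to Lie irreducible representations
-/

set_option autoImplicit false

open Module

namespace Pool.Agent.X264.IF

open Pool.Agent.X264.ES

universe u

variable {Ω : Type u} [Field Ω] {G : Type u} [Group G]

/-- restriction to a smaller subgroup -/
def resI {H H' : Subgroup G} (h : H' ≤ H) (R : ES.Rep Ω H) : ES.Rep Ω H' :=
  ⟨R.V, R.ρ.comp (Subgroup.inclusion h)⟩

/-- `R'` is a direct summand of `R`. -/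
def Summand {H : Subgroup G} (R R' : ES.Rep Ω H) : Prop :=
  ∃ (i : R'.V →ₗ[Ω] R.V) (q : R.V →ₗ[Ω] R'.V), R'.Equivariant R i ∧ R.Equivariant R' q ∧
    ∀ x, q (i x) = x

/-- The number fields `F ⊂ ℚ̄` with their Galois groups in `G = G_ℚ`, the representations which are
considered (continuous, unramified outside a finite set of places), and the three conditions. -/
structure World (Ω : Type u) [Field Ω] (G : Type u) [Group G] where
  Fld : Type u
  sub : Fld → Subgroup G
  Q : Fld
  ok : ∀ F, ES.Rep Ω (sub F) → Prop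
  C : Fin 3 → ∀ F, ES.Rep Ω (sub F) → Prop

namespace World

variable (W : World Ω G)

/-- all fields contain `ℚ` -/
def HasQ : Prop := ∀ F, W.sub F ≤ W.sub W.Q

/-- composites -/
def HasComposites : Prop := ∀ F L, ∃ F', W.sub F' ≤ W.sub F ∧ W.sub F' ≤ W.sub L

/-- restrictions -/
def HasRestriction : Prop :=
  ∀ (F F' : W.Fld) (h : W.sub F' ≤ W.sub F) (R : ES.Rep Ω (W.sub F)),
    (W.ok F R → W.ok F' (resI h R)) ∧ ∀ j, W.C j F R → W.C j F' (resI h R)

/-- direct summands -/
def HasSummands : Prop :=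
  ∀ (F : W.Fld) (R R' : ES.Rep Ω (W.sub F)), Summand R R' →
    (W.ok F R → W.ok F R') ∧ ∀ j, W.C j F R → W.C j F R'

/-- irreducible quotients -/
def HasQuotients : Prop :=
  ∀ (F : W.Fld) (R : ES.Rep Ω (W.sub F)), (∃ x : R.V, x ≠ 0) →
    ∃ (R' : ES.Rep Ω (W.sub F)) (q : R.V →ₗ[Ω] R'.V), R'.Irreducible ∧ R.Equivariant R' q ∧
      Function.Surjective q

/-- Clifford: the restriction of an irreducible representation is semisimple. -/
def HasClifford : Prop :=
  ∀ (F F' : W.Fld) (h : W.sub F' ≤ W.sub F) (R : ES.Rep Ω (W.sub F)) (R' : ES.Rep Ω (W.sub F')),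
    R.Irreducible → R'.Irreducible → (resI h R).HasMap R' → Summand (resI h R) R'

/-- The induced representation `A` of an irreducible `R'`: it satisfies the same conditions, it has an
irreducible constituent, and Frobenius reciprocity holds. -/
def HasInduction : Prop :=
  ∀ (F F' : W.Fld) (h : W.sub F' ≤ W.sub F) (R' : ES.Rep Ω (W.sub F')), R'.Irreducible →
    ∃ A : ES.Rep Ω (W.sub F), (W.ok F' R' → W.ok F A) ∧ (∀ j, W.C j F' R' → W.C j F A) ∧
      (∃ R : ES.Rep Ω (W.sub F), R.Irreducible ∧ (resI h R).HasMap R') ∧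
      ∀ R : ES.Rep Ω (W.sub F), R.Irreducible → (resI h R).HasMap R' → Summand A R

/-- The properties which are used. -/
structure IsKnown : Prop where
  q : W.HasQ
  composites : W.HasComposites
  restriction : W.HasRestriction
  summands : W.HasSummands
  quotients : W.HasQuotients
  clifford : W.HasClifford
  induction : W.HasInduction

/-- the three conditions are equivalent for `R` -/
def Equiv3 (F : W.Fld) (R : ES.Rep Ω (W.sub F)) : Prop := ∀ j j', W.C j F R → W.C j' F R

/-- `R` stays irreducible over all finite extensions -/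
def LieIrreducible (F : W.Fld) (R : ES.Rep Ω (W.sub F)) : Prop :=
  ∀ (F' : W.Fld) (h : W.sub F' ≤ W.sub F), (resI h R).Irreducible

/-- the question over `F` -/
def Question (F : W.Fld) : Prop := ∀ R, W.ok F R → R.Irreducible → W.Equiv3 F R

/-- the question for Lie irreducible representations over `F` -/
def LieQuestion (F : W.Fld) : Prop := ∀ R, W.ok F R → W.LieIrreducible F R → W.Equiv3 F R

variable {W}

/-- Linked irreducible representations satisfy the same conditions. -/
theorem linked (K : W.IsKnown) {F F' : W.Fld} (h : W.sub F' ≤ W.sub F) {R : ES.Rep Ω (W.sub F)}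
    {R' : ES.Rep Ω (W.sub F')} (hR : R.Irreducible) (hR' : R'.Irreducible)
    (hm : (resI h R).HasMap R') :
    (W.ok F R ↔ W.ok F' R') ∧ ∀ j, W.C j F R ↔ W.C j F' R' := by
  have h1 := K.clifford F F' h R R' hR hR' hm
  obtain ⟨A, hA1, hA2, -, hA3⟩ := K.induction F F' h R' hR'
  have h2 := hA3 R hR hm
  refine ⟨⟨fun a => ?_, fun a => ?_⟩, fun j => ⟨fun a => ?_, fun a => ?_⟩⟩
  · exact (K.summands F' _ _ h1).1 ((K.restriction F F' h R).1 a)
  · exact (K.summands F _ _ h2).1 (hA1 a)
  · exact (K.summands F' _ _ h1).2 j ((K.restriction F F' h R).2 j a)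
  · exact (K.summands F _ _ h2).2 j (hA2 j a)

/-- a surjection from an irreducible representation onto a nonzero one is injective; a nonzero map to an
irreducible representation is surjective -/
theorem surj_of_irr {H : Subgroup G} {R R' : ES.Rep Ω H} (h' : R'.Irreducible)
    {φ : R.V →ₗ[Ω] R'.V} (hφ : R.Equivariant R' φ) {x : R.V} (hx : φ x ≠ 0) :
    Function.Surjective φ := by
  rcases h'.2 (LinearMap.range φ) (fun g y hy => by
    obtain ⟨z, rfl⟩ := hy
    exact ⟨R.act g z, hφ g z⟩) with h1 | h1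
  · exfalso
    apply hx
    have : φ x ∈ LinearMap.range φ := ⟨x, rfl⟩
    rw [h1] at this
    exact this
  · exact LinearMap.range_eq_top.1 h1

/-- Irreducibility passes through an equivariant bijection. -/
theorem irr_of_bij {H : Subgroup G} {R R' : ES.Rep Ω H} (h' : R'.Irreducible)
    {φ : R.V →ₗ[Ω] R'.V} (hφ : R.Equivariant R' φ) (hb : Function.Bijective φ) :
    R.Irreducible := by
  refine ⟨?_, fun U hU => ?_⟩
  · obtain ⟨y, hy⟩ := h'.1
    obtain ⟨x, rfl⟩ := hb.2 y
    exact ⟨x, fun h0 => hy (by rw [h0, map_zero])⟩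
  · rcases h'.2 (U.map φ) (fun g y hy => by
      obtain ⟨z, hz, rfl⟩ := hy
      exact ⟨R.act g z, hU g z hz, hφ g z⟩) with h1 | h1
    · left
      rw [eq_bot_iff]
      intro x hx
      have : φ x ∈ U.map φ := Submodule.mem_map_of_mem hx
      rw [h1, Submodule.mem_bot] at this
      rw [Submodule.mem_bot]
      apply hb.1
      rw [this, map_zero]
    · right
      rw [eq_top_iff]
      intro x _
      have : φ x ∈ U.map φ := by rw [h1]; trivial
      obtain ⟨z, hz, he⟩ := this
      rw [← hb.1 he]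
      exact hz

/-- Every irreducible representation is linked to a Lie irreducible one over a field containing `L`. -/
theorem exists_lie (K : W.IsKnown) (L : W.Fld) {F : W.Fld} {R : ES.Rep Ω (W.sub F)}
    (hR : R.Irreducible) : ∃ (F' : W.Fld) (h : W.sub F' ≤ W.sub F) (R' : ES.Rep Ω (W.sub F')),
      W.sub F' ≤ W.sub L ∧ R'.Irreducible ∧ (resI h R).HasMap R' ∧ W.LieIrreducible F' R' := by
  classical
  let P : ℕ → Prop := fun n => ∃ (F' : W.Fld) (h : W.sub F' ≤ W.sub F)
    (R' : ES.Rep Ω (W.sub F')), W.sub F' ≤ W.sub L ∧ R'.Irreducible ∧ (resI h R).HasMap R' ∧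
      finrank Ω R'.V = n
  have hP : ∃ n, P n := by
    obtain ⟨F', h, hL⟩ := K.composites F L
    obtain ⟨R', q, hi, hq, hs⟩ := K.quotients F' (resI h R) hR.1
    obtain ⟨y, hy⟩ := hi.1
    obtain ⟨x, hx⟩ := hs y
    exact ⟨_, F', h, R', hL, hi, ⟨q, hq, x, by rw [hx]; exact hy⟩, rfl⟩
  obtain ⟨F', h, R', hL, hi, ⟨φ, hφ, x, hx⟩, hn⟩ := Nat.find_spec hP
  refine ⟨F', h, R', hL, hi, ⟨φ, hφ, x, hx⟩, fun F'' h'' => ?_⟩
  obtain ⟨R'', q, hi', hq, hs⟩ := K.quotients F'' (resI h'' R') hi.1
  have hφs := surj_of_irr hi hφ hx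
  obtain ⟨y, hy⟩ := hi'.1
  obtain ⟨z, hz⟩ := hs y
  obtain ⟨w, hw⟩ := hφs z
  let φ' : R.V →ₗ[Ω] R'.V := φ
  let q' : R'.V →ₗ[Ω] R''.V := q
  have hm : (resI (h''.trans h) R).HasMap R'' := by
    refine ⟨q'.comp φ', fun g v => ?_, w, ?_⟩
    · have e1 : φ' ((resI (h''.trans h) R).act g v) = (resI h'' R').act g (φ' v) :=
        hφ (Subgroup.inclusion h'' g) v
      show q' (φ' ((resI (h''.trans h) R).act g v)) = R''.act g (q' (φ' v))
      rw [e1]
      exact hq g (φ' v)
    · show q' (φ' w) ≠ 0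
      have e2 : φ' w = z := hw
      rw [e2]
      have e3 : q' z = y := hz
      rw [e3]
      exact hy
  have hge : finrank Ω R'.V ≤ finrank Ω R''.V := by
    rw [hn]
    exact Nat.find_min' hP ⟨F'', h''.trans h, R'', h''.trans hL, hi', hm, rfl⟩
  have hinj : Function.Injective q' := by
    have h1 : finrank Ω (LinearMap.range q') + finrank Ω (LinearMap.ker q') = finrank Ω R'.V :=
      q'.finrank_range_add_finrank_ker
    have h2 : LinearMap.range q' = ⊤ := LinearMap.range_eq_top.2 hs
    rw [h2, finrank_top] at h1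
    have h3 : finrank Ω (LinearMap.ker q') = 0 := by omega
    exact LinearMap.ker_eq_bot.1 (Submodule.finrank_eq_zero.1 h3)
  exact irr_of_bij hi' hq ⟨hinj, hs⟩

/-- The question over all number fields is equivalent to the question over `ℚ`, and to the question for
Lie irreducible representations over fields containing `L`. -/
theorem main (K : W.IsKnown) (L : W.Fld) :
    ((∀ F, W.Question F) ↔ W.Question W.Q) ∧
      ((∀ F, W.Question F) ↔ ∀ F, W.sub F ≤ W.sub L → W.LieQuestion F) := by
  refine ⟨⟨fun h => h W.Q, fun h F R hok hR j j' hj => ?_⟩,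
    ⟨fun h F _ R hok hl => ?_, fun h F R hok hR j j' hj => ?_⟩⟩
  · obtain ⟨A, -, -, ⟨S, hS, hm⟩, -⟩ := K.induction W.Q F (K.q F) R hR
    have h1 := linked K (K.q F) hS hR hm
    exact (h1.2 j').1 (h S (h1.1.2 hok) hS j j' ((h1.2 j).2 hj))
  · have h1 : R.Irreducible := hl F le_rfl
    exact h F R hok h1
  · obtain ⟨F', hle, R', hL, hi, hm, hlie⟩ := exists_lie K L hR
    have h1 := linked K hle hR hi hm
    exact (h1.2 j').2 (h F' hL R' (h1.1.1 hok) hlie j j' ((h1.2 j).1 hj))

end World

end Pool.Agent.X264.IF
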